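import Pool.Agent.W783.Perc.Stmts3
import Pool.Agent.W400.PC.PT
import Pool.Agent.W975.PC.GR1
import Pool.Agent.W599.PC.Gr2
import Pool.Agent.W402.PC.Simon
import Pool.Agent.W376.PC.Low

set_option autoImplicit false
set_option linter.unusedSectionVars false

open MeasureTheory Set
open scoped ENNReal

/-!
PC-LOWB and PC-LOWBS: the criterion `phi < 1` is stable under weak long bonds.
-/

namespace Pool.Agent.W613.PC

open Pool.Agent.W783.PC

noncomputable section

variable {n : ℕ}

/-- connection event; if `P` holds, the start is required to be open -/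
def AA (P : Prop) (E : Set (Sym2 (V n))) (R : Set (V n)) (x y : V n) : Set (Cfg n) :=
  {ω | (P → ω (Sum.inl x) = true) ∧ (G E ω R).Reachable x y}

open scoped Classical in
/-- common version of `phi` and `phiS` -/
def Ph (P : Prop) (a p : unitInterval) (β : NNReal) (s : ℝ) (m : ℕ) (S : Finset (V n))
    (x : V n) : ℝ :=
  ∑ y ∈ S, (pm (prob (n := n) a p β s m)).real (AA P (EdI m) (S : Set (V n)) x y) *
    ∑' z : V n, if z ∈ S then 0 else (prob (n := n) a p β s m (Sum.inr s(y, z)) : ℝ)

theorem phi_eq (p : unitInterval) (β : NNReal) (s : ℝ) (m : ℕ) (S : Finset (V n)) (x : V n) :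
    phi p β s m S x = Ph False 1 p β s m S x := by
  unfold phi Ph
  refine Finset.sum_congr rfl fun y _ => ?_
  congr 2
  ext ω
  simp [AA]

theorem phiS_eq (a : unitInterval) (β : NNReal) (s : ℝ) (m : ℕ) (S : Finset (V n)) (x : V n) :
    phiS a β s m S x = Ph True a 1 β s m S x := by
  unfold phiS Ph
  refine Finset.sum_congr rfl fun y _ => ?_
  congr 2
  ext ω
  simp [AA]

/-- nearest-neighbour bonds -/
def NE (n : ℕ) : Set (Sym2 (V n)) := {e | isNN e}

theorem NE_sub (m : ℕ) : NE n ⊆ EdI m := fun _ h => Or.inl h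

theorem prob_zero (a p : unitInterval) (s : ℝ) (m m' : ℕ) :
    prob (n := n) a p 0 s m = prob (n := n) a p 0 s m' := by
  classical
  have h0 : ∀ k, lrp 0 s k = 0 := by
    intro k
    apply Subtype.ext
    simp [lrp]
  funext c
  cases c with
  | inl x => rfl
  | inr e =>
    show (if isNN e then p else if isLg m e then lrp 0 s (len e) else 0) =
      (if isNN e then p else if isLg m' e then lrp 0 s (len e) else 0)
    rw [h0]
    split_ifs <;> rfl

theorem reach_monoE {E E' : Set (Sym2 (V n))} {ω : Cfg n} {R : Set (V n)} {x y : V n}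
    (h : ∀ u v, (G E ω R).Adj u v → s(u, v) ∈ E') (hxy : (G E ω R).Reachable x y) :
    (G E' ω R).Reachable x y := by
  apply hxy.mono
  intro u v huv
  exact ⟨huv.1, huv.2.1, huv.2.2.1, h u v huv, huv.2.2.2.2⟩

/-- the coordinates of the nearest-neighbour event -/
theorem AA_dep (P : Prop) (E : Set (Sym2 (V n))) (R : Set (V n)) (x y : V n) :
    DepOn (AA P E R x y) (insert (Sum.inl x) (Int' R ∩ rel E)) := by
  intro ω ω' h
  have h1 := Pool.Agent.W975.PC.s_reach_dep n E R x y ω ω' (fun c hc => h c (Or.inr hc))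
  have h2 := h (Sum.inl x) (Or.inl rfl)
  show ((P → ω (Sum.inl x) = true) ∧ (G E ω R).Reachable x y) ↔
    ((P → ω' (Sum.inl x) = true) ∧ (G E ω' R).Reachable x y)
  rw [h2]
  exact and_congr Iff.rfl h1

theorem AA_meas (P : Prop) (E : Set (Sym2 (V n))) (R : Set (V n)) (x y : V n) :
    MeasurableSet (AA P E R x y) := by
  have h1 := Pool.Agent.W975.PC.s_reach_meas n E R x y
  have h2 : MeasurableSet {ω : Cfg n | P → ω (Sum.inl x) = true} := by
    by_cases hP : P
    · have : {ω : Cfg n | P → ω (Sum.inl x) = true} = {ω : Cfg n | ω (Sum.inl x) = true} := by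
        ext ω; simp [hP]
      rw [this]
      exact Pool.Agent.W975.PC.meas_coord _
    · have : {ω : Cfg n | P → ω (Sum.inl x) = true} = univ := by
        ext ω; simp [hP]
      rw [this]
      exact MeasurableSet.univ
  exact h2.inter h1

/-- on the nearest-neighbour coordinates the parameters do not depend on `β`, `m` -/
theorem NN_prob (P : Prop) (a p : unitInterval) (β β' : NNReal) (s : ℝ) (m m' : ℕ)
    {R : Set (V n)} (hR : R.Finite) (x y : V n) :
    (pm (prob (n := n) a p β s m)).real (AA P (NE n) R x y) =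
      (pm (prob (n := n) a p β' s m')).real (AA P (NE n) R x y) := by
  classical
  have hfin : (insert (Sum.inl x) (Int' R ∩ rel (NE n)) : Set (Ix n)).Finite :=
    ((Pool.Agent.W975.PC.s_int_fin n R hR).inter_of_left _).insert _
  have h := Pool.Agent.W400.PC.s_tv (Ix n) (prob a p β s m) (prob a p β' s m') hfin.toFinset
    (AA P (NE n) R x y) (by rw [Set.Finite.coe_toFinset]; exact AA_dep P (NE n) R x y)
  have h0 : ∑ c ∈ hfin.toFinset,
      |(prob (n := n) a p β s m c : ℝ) - prob (n := n) a p β' s m' c| = 0 := by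
    apply Finset.sum_eq_zero
    intro c hc
    rw [Set.Finite.mem_toFinset] at hc
    have hc' : (∃ v, c = Sum.inl v) ∨ ∃ e ∈ NE n, c = Sum.inr e := by
      rcases hc with rfl | hc
      · exact Or.inl ⟨x, rfl⟩
      · exact hc.2
    rcases hc' with ⟨v, rfl⟩ | ⟨e, he, rfl⟩
    · show |(a : ℝ) - a| = 0
      simp
    · have he' : isNN e := he
      have e1 : prob (n := n) a p β s m (Sum.inr e) = p := if_pos he'
      have e2 : prob (n := n) a p β' s m' (Sum.inr e) = p := if_pos he'
      rw [e1, e2]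
      simp
  rw [h0] at h
  have := abs_nonpos_iff.1 h
  linarith

/-- translation of the nearest-neighbour event -/
theorem NN_shift (P : Prop) (a p : unitInterval) (s : ℝ) (S : Finset (V n)) (x y : V n) :
    (pm (prob (n := n) a p 0 s 1)).real
        (AA P (NE n) ((S.map (addRightEmbedding x) : Finset (V n)) : Set (V n)) x (y + x)) =
      (pm (prob (n := n) a p 0 s 1)).real (AA P (NE n) (S : Set (V n)) 0 y) := by
  have h := Pool.Agent.W599.PC.Gr2.s_shift_pm Pool.Agent.W400.PC.s_equiv n 1 a p 0 s x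
    (fun i => by simp) (AA P (NE n) (S : Set (V n)) 0 y) (AA_meas _ _ _ _ _)
  rw [measureReal_def, measureReal_def, ← h]
  congr 2
  ext ω
  have hE : ∀ u v : V n, s(u + x, v + x) ∈ NE n ↔ s(u, v) ∈ NE n := by
    intro u v
    show isNN _ ↔ isNN _
    rw [Pool.Agent.W599.PC.Gr2.isNN_mk, Pool.Agent.W599.PC.Gr2.isNN_mk]
    exact Pool.Agent.W599.PC.Gr2.nn_shift x u v
  have h1 := Pool.Agent.W599.PC.Gr2.s_shift_G n (NE n) x hE ω (S : Set (V n)) 0 y
  have h2 : ({v | v - x ∈ (S : Set (V n))} : Set (V n)) =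
      ((S.map (addRightEmbedding x) : Finset (V n)) : Set (V n)) := by
    ext v
    simp only [Finset.coe_map, addRightEmbedding_apply, mem_image, Finset.mem_coe, mem_ofPred_eq]
    constructor
    · intro hv
      exact ⟨v - x, hv, by simp⟩
    · rintro ⟨u, hu, rfl⟩
      simpa using hu
  rw [h2, zero_add] at h1
  show ((P → ω (Sum.inl x) = true) ∧ (G (NE n) ω _).Reachable x (y + x)) ↔
    ((P → ω (Sum.inl (0 + x)) = true) ∧
      (G (NE n) (fun c => ω (sh x c)) (S : Set (V n))).Reachable 0 y)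
  rw [zero_add, h1]

theorem lrp_le' (β : NNReal) (s : ℝ) (hs : 0 ≤ s) (k : ℕ) (hk : 1 ≤ k) :
    (lrp β s k : ℝ) ≤ β := by
  refine (Pool.Agent.W402.PC.lrp_le β s k).trans ?_
  have h1 : (k : ℝ) ^ (-s) ≤ 1 :=
    Real.rpow_le_one_of_one_le_of_nonpos (by exact_mod_cast hk) (by linarith)
  have h2 : (0 : ℝ) ≤ β := β.2
  nlinarith

theorem pm_true {ι : Type} (r : ι → unitInterval) (c : ι) :
    (pm r).real {ω | ω c = true} = r c := by
  rw [measureReal_def, Pool.Agent.W402.PC.pm_coord, Pool.Agent.W402.PC.bern_true,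
    ENNReal.toReal_ofReal (r c).2.1]

/-- step (1): long bonds inside a finite region -/
theorem step1 (P : Prop) (a p : unitInterval) (β : NNReal) (s : ℝ) (hs : 1 < s) (m : ℕ)
    (T : Finset (V n)) (x y : V n) :
    (pm (prob (n := n) a p β s m)).real (AA P (EdI m) (T : Set (V n)) x y) ≤
      (pm (prob (n := n) a p β s m)).real (AA P (NE n) (T : Set (V n)) x y) +
        (T.card : ℝ) ^ 2 * β := by
  classical
  set μ := pm (prob (n := n) a p β s m) with hμ
  set Q : Finset (V n × V n) := (T ×ˢ T).filter (fun q => Lg m q.1 q.2) with hQ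
  set B : V n × V n → Set (Cfg n) := fun q => {ω | ω (Sum.inr s(q.1, q.2)) = true} with hB
  have hsub : AA P (EdI m) (T : Set (V n)) x y ⊆
      AA P (NE n) (T : Set (V n)) x y ∪ ⋃ q ∈ Q, B q := by
    intro ω hω
    by_cases h : ∃ q ∈ Q, ω ∈ B q
    · right
      obtain ⟨q, hq, hq2⟩ := h
      exact mem_biUnion hq hq2
    · left
      push Not at h
      refine ⟨hω.1, reach_monoE ?_ hω.2⟩
      intro u v huv
      rcases huv.2.2.2.1 with h1 | h1
      · exact h1
      · exfalso
        have h2 : Lg m u v := (Pool.Agent.W599.PC.Gr2.isLg_mk m u v).1 h1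
        refine h (u, v) ?_ huv.2.2.2.2.2.2
        rw [hQ, Finset.mem_filter, Finset.mem_product]
        exact ⟨⟨huv.2.1, huv.2.2.1⟩, h2⟩
  have h1 : μ.real (⋃ q ∈ Q, B q) ≤ ∑ q ∈ Q, μ.real (B q) := measureReal_biUnion_finset_le Q B
  have h2 : ∑ q ∈ Q, μ.real (B q) ≤ ∑ _q ∈ Q, (β : ℝ) := by
    apply Finset.sum_le_sum
    intro q hq
    rw [hQ, Finset.mem_filter] at hq
    rw [hB, hμ, pm_true]
    have hL := hq.2
    have hN : ¬ isNN s(q.1, q.2) := by
      rw [Pool.Agent.W599.PC.Gr2.isNN_mk]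
      intro hN
      unfold NN at hN
      have h3 : 0 ≤ ∑ i, |q.1.2 i - q.2.2 i| := Finset.sum_nonneg fun i _ => abs_nonneg _
      have h4 := hL.2.2
      have h5 : |q.1.1 - q.2.1| ≤ 1 := by linarith
      rw [Int.abs_eq_natAbs] at h5
      omega
    have e1 : prob (n := n) a p β s m (Sum.inr s(q.1, q.2)) = lrp β s (len s(q.1, q.2)) := by
      have := (Pool.Agent.W599.PC.Gr2.isLg_mk m q.1 q.2).2 hL
      show (if isNN s(q.1, q.2) then p else if isLg m s(q.1, q.2) then
        lrp β s (len s(q.1, q.2)) else 0) = _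
      rw [if_neg hN, if_pos this]
    rw [e1]
    refine lrp_le' β s (by linarith) _ ?_
    show 1 ≤ (q.1.1 - q.2.1).natAbs
    have := hL.2.2
    omega
  have h3 : ∑ _q ∈ Q, (β : ℝ) ≤ (T.card : ℝ) ^ 2 * β := by
    rw [Finset.sum_const, nsmul_eq_mul]
    refine mul_le_mul_of_nonneg_right ?_ β.2
    have h4 : Q.card ≤ T.card * T.card := by
      rw [← Finset.card_product]
      exact Finset.card_filter_le _ _
    calc (Q.card : ℝ) ≤ ((T.card * T.card : ℕ) : ℝ) := by exact_mod_cast h4
      _ = _ := by push_cast; ring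
  calc μ.real (AA P (EdI m) (T : Set (V n)) x y) ≤
      μ.real (AA P (NE n) (T : Set (V n)) x y ∪ ⋃ q ∈ Q, B q) := measureReal_mono hsub
    _ ≤ μ.real (AA P (NE n) (T : Set (V n)) x y) + μ.real (⋃ q ∈ Q, B q) :=
        measureReal_union_le _ _
    _ ≤ _ := by linarith

open scoped Classical in
/-- step (3): the sum over the bonds leading outside -/
theorem step3 (a p : unitInterval) (β : NNReal) (s : ℝ) (hs : 1 < s) (m : ℕ)
    (S : Finset (V n)) (x y : V n) :
    (∑' z : V n, if z ∈ S.map (addRightEmbedding x) then 0 else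
        (prob (n := n) a p β s m (Sum.inr s(y + x, z)) : ℝ)) ≤
      (∑' z : V n, if z ∈ S then 0 else (prob (n := n) a p 0 s m (Sum.inr s(y, z)) : ℝ)) +
        2 * β * ∑' k : ℕ, ((k + 2 : ℕ) : ℝ) ^ (-s) := by
  set f : V n → ℝ := fun z => if Lg m (y + x) z then
    (lrp β s ((y + x).1 - z.1).natAbs : ℝ) else 0 with hf
  set g : V n → ℝ := fun z => if z ∈ S.map (addRightEmbedding x) then 0 else
        (prob (n := n) a p 0 s m (Sum.inr s(y + x, z)) : ℝ) with hg
  have hf0 : ∀ z, 0 ≤ f z := by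
    intro z
    simp only [hf]
    split_ifs
    · exact (lrp β s _).2.1
    · exact le_rfl
  have hle : ∀ z, (if z ∈ S.map (addRightEmbedding x) then 0 else
        (prob (n := n) a p β s m (Sum.inr s(y + x, z)) : ℝ)) ≤ g z + f z := by
    intro z
    by_cases hz : z ∈ S.map (addRightEmbedding x)
    · simp only [hg]
      rw [if_pos hz, if_pos hz, zero_add]
      exact hf0 z
    · simp only [hg, hf]
      rw [if_neg hz, if_neg hz]
      show ((if isNN s(y + x, z) then p else if isLg m s(y + x, z) then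
          lrp β s (len s(y + x, z)) else 0 : unitInterval) : ℝ) ≤
        ((if isNN s(y + x, z) then p else if isLg m s(y + x, z) then
          lrp 0 s (len s(y + x, z)) else 0 : unitInterval) : ℝ) + _
      by_cases hN : isNN s(y + x, z)
      · rw [if_pos hN, if_pos hN]
        have := hf0 z
        simp only [hf] at this
        linarith
      · rw [if_neg hN, if_neg hN]
        by_cases hL : isLg m s(y + x, z)
        · have hL' := (Pool.Agent.W599.PC.Gr2.isLg_mk m (y + x) z).1 hL
          rw [if_pos hL, if_pos hL, if_pos hL']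
          have h1 : (0 : ℝ) ≤ lrp 0 s (len s(y + x, z)) := (lrp 0 s _).2.1
          have h2 : len s(y + x, z) = ((y + x).1 - z.1).natAbs := rfl
          rw [← h2]
          linarith
        · have hL' : ¬ Lg m (y + x) z := fun h =>
            hL ((Pool.Agent.W599.PC.Gr2.isLg_mk m (y + x) z).2 h)
          rw [if_neg hL, if_neg hL, if_neg hL']
          simp
  have hsg0 : Summable (fun z : V n => (prob (n := n) a p 0 s m (Sum.inr s(y + x, z)) : ℝ)) :=
    Pool.Agent.W402.PC.prob_summable a p 0 s hs (y + x)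
  have hsg : Summable g := by
    refine Summable.of_nonneg_of_le (fun z => ?_) (fun z => ?_) hsg0
    · simp only [hg]
      split_ifs
      · exact le_rfl
      · exact (prob (n := n) a p 0 s m _).2.1
    · simp only [hg]
      split_ifs
      · exact (prob (n := n) a p 0 s m _).2.1
      · exact le_rfl
  have hsb : Summable (fun z : V n => (prob (n := n) a p β s m (Sum.inr s(y + x, z)) : ℝ)) :=
    Pool.Agent.W402.PC.prob_summable a p β s hs (y + x)
  have hsf : Summable f := by
    refine Summable.of_nonneg_of_le hf0 (fun z => ?_) hsb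
    simp only [hf]
    by_cases hL : Lg m (y + x) z
    · rw [if_pos hL]
      have hN : ¬ isNN s(y + x, z) := by
        rw [Pool.Agent.W599.PC.Gr2.isNN_mk]
        intro hN
        unfold NN at hN
        have h3 : 0 ≤ ∑ i, |(y + x).2 i - z.2 i| := Finset.sum_nonneg fun i _ => abs_nonneg _
        have h4 := hL.2.2
        have h5 : |(y + x).1 - z.1| ≤ 1 := by linarith
        rw [Int.abs_eq_natAbs] at h5
        omega
      have e1 : prob (n := n) a p β s m (Sum.inr s(y + x, z)) = lrp β s (len s(y + x, z)) := by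
        have := (Pool.Agent.W599.PC.Gr2.isLg_mk m (y + x) z).2 hL
        show (if isNN s(y + x, z) then p else if isLg m s(y + x, z) then
          lrp β s (len s(y + x, z)) else 0) = _
        rw [if_neg hN, if_pos this]
      rw [e1]
      exact le_rfl
    · rw [if_neg hL]
      exact (prob (n := n) a p β s m _).2.1
  have hsl : Summable (fun z : V n => if z ∈ S.map (addRightEmbedding x) then 0 else
        (prob (n := n) a p β s m (Sum.inr s(y + x, z)) : ℝ)) := by
    refine Summable.of_nonneg_of_le (fun z => ?_) (fun z => ?_) hsb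
    · split_ifs
      · exact le_rfl
      · exact (prob (n := n) a p β s m _).2.1
    · split_ifs
      · exact (prob (n := n) a p β s m _).2.1
      · exact le_rfl
  have h1 : (∑' z : V n, if z ∈ S.map (addRightEmbedding x) then 0 else
        (prob (n := n) a p β s m (Sum.inr s(y + x, z)) : ℝ)) ≤ ∑' z, g z + ∑' z, f z := by
    rw [← hsg.tsum_add hsf]
    exact hsl.tsum_le_tsum hle (hsg.add hsf)
  -- the translated sum
  have h2 : ∑' z, g z =
      ∑' z : V n, if z ∈ S then 0 else (prob (n := n) a p 0 s m (Sum.inr s(y, z)) : ℝ) := by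
    rw [← (Equiv.addRight x).tsum_eq g]
    apply tsum_congr
    intro z
    simp only [hg, Equiv.coe_addRight]
    have e1 : (z + x ∈ S.map (addRightEmbedding x)) ↔ z ∈ S := by
      constructor
      · intro h
        rw [Finset.mem_map] at h
        obtain ⟨u, hu, hu2⟩ := h
        rw [addRightEmbedding_apply] at hu2
        rwa [add_right_cancel hu2] at hu
      · intro h
        exact Finset.mem_map.2 ⟨z, h, rfl⟩
    have e2 : prob (n := n) a p 0 s m (Sum.inr s(y + x, z + x)) =
        prob (n := n) a p 0 s m (Sum.inr s(y, z)) := by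
      rw [prob_zero a p s m 1]
      exact Pool.Agent.W599.PC.Gr2.prob_shift a p 0 s 1 x (fun i => by simp) (Sum.inr s(y, z))
    rw [e2]
    by_cases hz : z ∈ S
    · rw [if_pos hz, if_pos (e1.2 hz)]
    · rw [if_neg hz, if_neg (fun h => hz (e1.1 h))]
  -- the long bonds
  have hsz : Summable (fun k : ℕ => ((k + 2 : ℕ) : ℝ) ^ (-s)) :=
    (summable_nat_add_iff 2).mpr (Real.summable_nat_rpow.mpr (by linarith))
  have h3 : ∑' z, f z ≤ 2 * β * ∑' k : ℕ, ((k + 2 : ℕ) : ℝ) ^ (-s) := by
    have e1 : ENNReal.ofReal (∑' z, f z) ≤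
        ENNReal.ofReal (2 * ∑' k : ℕ, (lrp β s (k + 2) : ℝ)) := by
      rw [ENNReal.ofReal_tsum_of_nonneg hf0 hsf, ENNReal.ofReal_mul (by norm_num),
        ENNReal.ofReal_tsum_of_nonneg (fun k => (lrp β s _).2.1)
          (Pool.Agent.W376.PC.lrp_summable β s hs)]
      have e2 := Pool.Agent.W376.PC.sum_Lg (y + x) m
        (fun k => ENNReal.ofReal (lrp β s k : ℝ))
      refine le_trans (le_of_eq ?_) (e2.trans (le_of_eq ?_))
      · apply tsum_congr
        intro z
        simp only [hf]
        split_ifs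
        · rfl
        · simp
      · simp
    have e3 : 0 ≤ 2 * ∑' k : ℕ, (lrp β s (k + 2) : ℝ) :=
      mul_nonneg (by norm_num) (tsum_nonneg fun k => (lrp β s _).2.1)
    have e4 := (ENNReal.ofReal_le_ofReal_iff e3).1 e1
    have e5 : ∑' k : ℕ, (lrp β s (k + 2) : ℝ) ≤ ∑' k : ℕ, (β : ℝ) * ((k + 2 : ℕ) : ℝ) ^ (-s) :=
      (Pool.Agent.W376.PC.lrp_summable β s hs).tsum_le_tsum
        (fun k => Pool.Agent.W402.PC.lrp_le β s (k + 2)) (hsz.mul_left _)
    rw [tsum_mul_left] at e5
    linarith
  rw [h2] at h1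
  linarith

theorem general (P : Prop) (a p : unitInterval) (s : ℝ) (hs : 1 < s) (m : ℕ) (S : Finset (V n))
    (h : Ph P a p 0 s m S 0 < 1) : ∃ (β0 : NNReal) (ρ : ℝ), 0 < β0 ∧ ρ < 1 ∧
    ∀ β : NNReal, β ≤ β0 → ∀ x : V n,
      Ph P a p β s m (S.map (addRightEmbedding x)) x ≤ ρ := by
  classical
  set P0 : V n → ℝ := fun y =>
    (pm (prob (n := n) a p 0 s m)).real (AA P (EdI m) (S : Set (V n)) 0 y) with hP0
  set T0 : V n → ℝ := fun y =>
    ∑' z : V n, if z ∈ S then 0 else (prob (n := n) a p 0 s m (Sum.inr s(y, z)) : ℝ) with hT0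
  set ζ : ℝ := ∑' k : ℕ, ((k + 2 : ℕ) : ℝ) ^ (-s) with hζ
  have hζ0 : 0 ≤ ζ := tsum_nonneg fun k => Real.rpow_nonneg (Nat.cast_nonneg _) _
  have hP00 : ∀ y, 0 ≤ P0 y := fun y => measureReal_nonneg
  have hT00 : ∀ y, 0 ≤ T0 y := by
    intro y
    apply tsum_nonneg
    intro z
    split_ifs
    · exact le_rfl
    · exact (prob (n := n) a p 0 s m _).2.1
  set N : ℝ := (S.card : ℝ) ^ 2 with hN
  have hN0 : 0 ≤ N := by positivity
  set C : ℝ := ∑ y ∈ S, (2 * ζ * P0 y + N * T0 y + 2 * N * ζ) with hC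
  have hC0 : 0 ≤ C := by
    apply Finset.sum_nonneg
    intro y _
    have := hP00 y
    have := hT00 y
    positivity
  set Φ : ℝ := Ph P a p 0 s m S 0 with hΦ
  have hΦe : Φ = ∑ y ∈ S, P0 y * T0 y := by
    rw [hΦ]
    unfold Ph
    refine Finset.sum_congr rfl fun y _ => ?_
    simp only [hP0, hT0]
  -- main estimate
  have hmain : ∀ β : NNReal, (β : ℝ) ≤ 1 → ∀ x : V n,
      Ph P a p β s m (S.map (addRightEmbedding x)) x ≤ Φ + β * C := by
    intro β hβ x
    have hb0 : (0 : ℝ) ≤ β := β.2
    have e1 : Ph P a p β s m (S.map (addRightEmbedding x)) x ≤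
        ∑ y ∈ S, (P0 y + N * β) * (T0 y + 2 * β * ζ) := by
      unfold Ph
      rw [Finset.sum_map]
      apply Finset.sum_le_sum
      intro y _
      rw [addRightEmbedding_apply]
      have t1 := step1 P a p β s hs m (S.map (addRightEmbedding x)) x (y + x)
      have t2 : (pm (prob (n := n) a p β s m)).real
          (AA P (NE n) ((S.map (addRightEmbedding x) : Finset (V n)) : Set (V n)) x (y + x)) ≤
          P0 y := by
        rw [NN_prob P a p β 0 s m 1 (Finset.finite_toSet _) x (y + x), NN_shift,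
          NN_prob P a p 0 0 s 1 m (Finset.finite_toSet _) 0 y]
        exact measureReal_mono (fun ω hω =>
          ⟨hω.1, reach_monoE (fun u v huv => NE_sub m huv.2.2.2.1) hω.2⟩)
      have t3 := step3 a p β s hs m S x y
      rw [Finset.card_map] at t1
      have t4 : 0 ≤ P0 y + N * β := add_nonneg (hP00 y) (mul_nonneg hN0 hb0)
      refine mul_le_mul (by linarith) ?_ ?_ t4
      · convert t3 using 3
      · apply tsum_nonneg
        intro z
        split_ifs
        · exact le_rfl
        · exact (prob (n := n) a p β s m _).2.1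
    refine e1.trans ?_
    rw [hΦe, hC, Finset.mul_sum, ← Finset.sum_add_distrib]
    apply Finset.sum_le_sum
    intro y _
    have t1 : (β : ℝ) * β ≤ β := by nlinarith
    have t2 : 0 ≤ 2 * N * ζ := by positivity
    nlinarith [mul_le_mul_of_nonneg_left t1 t2]
  have hpos : 0 < min 1 ((1 - Φ) / (2 * (C + 1))) := by
    apply lt_min one_pos
    apply div_pos (by linarith) (by linarith)
  refine ⟨⟨min 1 ((1 - Φ) / (2 * (C + 1))), hpos.le⟩, (1 + Φ) / 2, ?_, by linarith, ?_⟩
  · exact_mod_cast hpos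
  · intro β hβ x
    have hβ' : (β : ℝ) ≤ min 1 ((1 - Φ) / (2 * (C + 1))) := by exact_mod_cast hβ
    have h1 : (β : ℝ) ≤ 1 := hβ'.trans (min_le_left _ _)
    have h2 : (β : ℝ) ≤ (1 - Φ) / (2 * (C + 1)) := hβ'.trans (min_le_right _ _)
    have h3 : (β : ℝ) * (2 * (C + 1)) ≤ 1 - Φ := by
      rwa [le_div_iff₀ (by linarith)] at h2
    have h4 : (0 : ℝ) ≤ β := β.2
    have h5 := hmain β h1 x
    nlinarith

theorem s_lowb : S_lowb := by
  intro n m p s hs S _ h
  rw [phi_eq] at h
  obtain ⟨β0, ρ, h1, h2, h3⟩ := general False 1 p s hs m S h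
  refine ⟨β0, ρ, h1, h2, fun β hβ x => ?_⟩
  rw [phi_eq]
  exact h3 β hβ x

theorem s_lowbS : S_lowbS := by
  intro n m a s hs S _ h
  rw [phiS_eq] at h
  obtain ⟨β0, ρ, h1, h2, h3⟩ := general True a 1 s hs m S h
  refine ⟨β0, ρ, h1, h2, fun β hβ x => ?_⟩
  rw [phiS_eq]
  exact h3 β hβ x

end

end Pool.Agent.W613.PC
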